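import Pool.Agent.Helper70.EC.St

set_option autoImplicit false

/-! Module S23 of project EC. -/

namespace Pool.Agent.Helper2.EC

open Finset
open Pool.Agent.Helper70.EC
open Pool.Agent.Helper1.PFS (G uu mm cor inf')

variable {p : ℕ} [Fact p.Prime]

/-- composition with the inverse -/
def chk (f : G p → ℝ) : G p → ℝ := fun g => f g⁻¹

theorem nsq_chk (f : G p → ℝ) : nsq (chk f) = nsq f := by
  unfold nsq chk
  exact Fintype.sum_equiv (Equiv.inv (G p)) _ _ (fun g => rfl)

theorem TT_chk (u v w : G p → ℝ) : TT u v w = TT (chk v) (chk u) (chk w) := by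
  unfold TT chk
  rw [sum_comm]
  apply Fintype.sum_equiv (Equiv.inv (G p))
  intro b
  apply Fintype.sum_equiv (Equiv.inv (G p))
  intro a
  simp only [Equiv.inv_apply, inv_inv, mul_inv_rev]
  ring

theorem TT_three (u v w : G p → ℝ) : TT u v w = TT w (chk v) u := by
  unfold TT chk
  rw [sum_comm]
  rw [sum_comm (f := fun (z : G p) (b : G p) => w z * v b⁻¹ * u (z * b))]
  apply Fintype.sum_equiv (Equiv.inv (G p))
  intro b
  apply Fintype.sum_equiv (Equiv.mulRight b)
  intro a
  simp only [Equiv.inv_apply, inv_inv, Equiv.coe_mulRight, mul_inv_cancel_right]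
  ring

theorem av_chk (hBP : StBP) (x y : Pt p) (f : G p → ℝ) (g : G p) :
    av x y f g⁻¹ = av y x (chk f) g := by
  unfold av
  have hiff : g⁻¹ • x = y ↔ g • y = x := by
    rw [inv_smul_eq_iff]
    exact eq_comm
  by_cases h : g • y = x
  · rw [if_pos (hiff.2 h), if_pos h]
    congr 1
    obtain ⟨b1, _, b3, b4, _⟩ := hBP p y x
    obtain ⟨_, _, _, c4, _⟩ := hBP p x y
    obtain ⟨c, t, rfl⟩ := (b1 g).1 h
    rw [b3 c t]
    have hc : ((c : ZMod p)) ≠ 0 := c.ne_zero
    have hc2 : -((c : ZMod p) ^ 2) ≠ 0 := neg_ne_zero.2 (pow_ne_zero 2 hc)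
    symm
    apply Fintype.sum_equiv (Equiv.mulLeft₀ (-((c : ZMod p) ^ 2)) hc2)
    intro s
    unfold chk
    rw [b4, b3, c4]
    congr 2
    show -((c : ZMod p) ^ 2 * (t + s)) = -((c : ZMod p) ^ 2 * t) + (-((c : ZMod p) ^ 2)) * s
    ring
  · rw [if_neg h, if_neg (fun h' => h (hiff.1 h'))]

theorem hS23 (hBP : StBP) (hS1 : StS1) : StS23 := by
  intro p _ x y f a b hf
  constructor
  · have h1 : Supp y x (chk f) := by
      intro g hg
      apply hf
      intro h
      apply hg
      rw [inv_smul_eq_iff] at h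
      exact h.symm
    have h2 := hS1 p y x (chk f) (chk a) (chk b) h1
    rw [nsq_chk, nsq_chk, nsq_chk] at h2
    rw [TT_chk]
    have h3 : chk (fun g => f g - av x y f g) = fun g => chk f g - av y x (chk f) g := by
      funext g
      show f g⁻¹ - av x y f g⁻¹ = chk f g - av y x (chk f) g
      rw [av_chk hBP]
      rfl
    rw [h3]
    exact h2
  · rw [TT_three]
    have h2 := hS1 p x y f (chk b) a hf
    rw [nsq_chk] at h2
    calc _ ≤ _ := h2
      _ = _ := by ring

end Pool.Agent.Helper2.EC
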