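import Pool.Agent.Helper70.EC.St

set_option autoImplicit false

/-! Module T2 of project EC. -/

namespace Pool.Agent.Helper2.EC

open Finset
open Pool.Agent.Helper70.EC
open Pool.Agent.Helper1.PFS (G uu mm cor inf')

theorem bonf_T2 {ι α : Type} [DecidableEq α] (A : ι → Finset α) (a b : ℝ) (E : Finset ι)
    (ha : ∀ e ∈ E, a ≤ ((A e).card : ℝ))
    (hb : ∀ e ∈ E, ∀ e' ∈ E, e ≠ e' → ((A e ∩ A e').card : ℝ) ≤ b) :
    (E.card : ℝ) * a - ((E.card : ℝ) * ((E.card : ℝ) - 1) / 2) * b ≤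
      ((E.biUnion A).card : ℝ) := by
  classical
  induction E using Finset.induction_on with
  | empty => simp
  | insert e E he ih =>
    have h1 := ih (fun e' h => ha e' (mem_insert_of_mem h))
      (fun e' h e'' h' => hb e' (mem_insert_of_mem h) e'' (mem_insert_of_mem h'))
    have h2 := ha e (mem_insert_self e E)
    have h3 : ((A e ∩ E.biUnion A).card : ℝ) ≤ E.card * b := by
      have h4 : A e ∩ E.biUnion A = E.biUnion (fun e' => A e ∩ A e') := by
        ext g
        simp only [mem_inter, mem_biUnion]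
        constructor
        · rintro ⟨h, e', h', h''⟩
          exact ⟨e', h', h, h''⟩
        · rintro ⟨e', h', h, h''⟩
          exact ⟨h, e', h', h''⟩
      rw [h4]
      calc (((E.biUnion (fun e' => A e ∩ A e')).card : ℕ) : ℝ)
          ≤ ((∑ e' ∈ E, (A e ∩ A e').card : ℕ) : ℝ) := by exact_mod_cast card_biUnion_le
        _ = ∑ e' ∈ E, ((A e ∩ A e').card : ℝ) := by push_cast; rfl
        _ ≤ ∑ _e' ∈ E, b := by
            apply sum_le_sum
            intro e' he'
            apply hb e (mem_insert_self e E) e' (mem_insert_of_mem he')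
            rintro rfl
            exact he he'
        _ = _ := by rw [sum_const, nsmul_eq_mul]
    have h5 := card_union_add_card_inter (A e) (E.biUnion A)
    have h6 : (((A e ∪ E.biUnion A).card : ℕ) : ℝ) + ((A e ∩ E.biUnion A).card : ℝ) =
        ((A e).card : ℝ) + ((E.biUnion A).card : ℝ) := by exact_mod_cast h5
    rw [biUnion_insert, card_insert_of_notMem he]
    push_cast
    nlinarith

open Classical in
theorem inter_T2 (hBP : StBP) (p : ℕ) [Fact p.Prime] (S : Set (G p)) (x y x' y' : Pt p)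
    (hne : (x, y) ≠ (x', y')) :
    (((univ : Finset (G p)).filter (fun h => h ∈ S ∧ h • x = y)) ∩
      ((univ : Finset (G p)).filter (fun h => h ∈ S ∧ h • x' = y'))).card ≤ p - 1 := by
  set B : Finset (G p) := ((univ : Finset (G p)).filter (fun h => h ∈ S ∧ h • x = y)) ∩
      ((univ : Finset (G p)).filter (fun h => h ∈ S ∧ h • x' = y')) with hB
  have hmem : ∀ g ∈ B, g • x = y ∧ g • x' = y' := by
    intro g hg
    simp only [hB, mem_inter, mem_filter, mem_univ, true_and] at hg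
    exact ⟨hg.1.2, hg.2.2⟩
  by_cases hx : x = x'
  · have hempty : B = ∅ := by
      apply eq_empty_of_forall_notMem
      intro g hg
      obtain ⟨h1, h2⟩ := hmem g hg
      apply hne
      rw [← hx, h1] at h2
      rw [hx, h2]
    rw [hempty]
    simp
  by_cases hy : y = y'
  · have hempty : B = ∅ := by
      apply eq_empty_of_forall_notMem
      intro g hg
      obtain ⟨h1, h2⟩ := hmem g hg
      apply hx
      rw [← hy, ← h1] at h2
      exact (MulAction.injective g h2).symm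
    rw [hempty]
    simp
  obtain ⟨b1, _, _, _, _, b6⟩ := hBP p x y
  choose c t hct using fun (g : G p) (hg : g • x = y) => (b1 g).1 hg
  have hcard : B.card ≤ (univ : Finset (ZMod p)ˣ).card := by
    apply card_le_card_of_injOn (fun g => if h : g • x = y then c g h else 1)
    · intro g _
      exact mem_coe.2 (mem_univ _)
    · intro g hg g' hg' h
      obtain ⟨h1, h2⟩ := hmem g (mem_coe.1 hg)
      obtain ⟨h3, h4⟩ := hmem g' (mem_coe.1 hg')
      simp only [h1, h3, dite_true] at h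
      have e1 := hct g h1
      have e2 := hct g' h3
      rw [← h] at e2
      have e3 := b6 x' y' hx hy (c g h1) (t g h1) (t g' h3) (by rw [← e1]; exact h2)
        (by rw [← e2]; exact h4)
      rw [e1, e2, e3]
  rw [card_univ, ZMod.card_units] at hcard
  exact hcard

theorem fin_T2 (s P r K N : ℝ) (hs : 0 < s) (hP : 2 ≤ P) (hr : 0 ≤ r) (hr2 : r ^ 2 * s ^ 3 = P)
    (hK : K ≤ 180 * r) (n : ℝ) (hn : n = P * (P ^ 2 - 1))
    (h : N ^ 3 ≤ 4000 * P * K * n ^ 2) :
    N ≤ 100 * s ^ (-(1 / 2) : ℝ) * n ^ (5 / 6 : ℝ) := by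
  have hn0 : 0 < n := by
    rw [hn]
    nlinarith [mul_pos (by linarith : (0 : ℝ) < P) (by nlinarith : (0 : ℝ) < P ^ 2 - 1)]
  have hM : 0 ≤ 100 * s ^ (-(1 / 2) : ℝ) * n ^ (5 / 6 : ℝ) := by positivity
  apply le_of_pow_le_pow_left₀ (three_ne_zero) hM
  have e1 : (100 * s ^ (-(1 / 2) : ℝ) * n ^ (5 / 6 : ℝ)) ^ 3 =
      1000000 * (s ^ (-(1 / 2) : ℝ)) ^ 3 * (n ^ 2 * √n) := by
    have e2 : (n ^ (5 / 6 : ℝ)) ^ 3 = n ^ 2 * √n := by
      rw [← Real.rpow_natCast (n ^ (5 / 6 : ℝ)) 3, ← Real.rpow_mul hn0.le, Real.sqrt_eq_rpow,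
        ← Real.rpow_natCast n 2, ← Real.rpow_add hn0]
      norm_num
    rw [mul_pow, mul_pow, e2]
    norm_num
  rw [e1]
  set w := (s ^ (-(1 / 2) : ℝ)) ^ 3 with hw
  have hw0 : 0 < w := by positivity
  have hw2 : w ^ 2 * s ^ 3 = 1 := by
    have e3 : (s ^ (-(1 / 2) : ℝ)) ^ 2 * s = 1 := by
      rw [← Real.rpow_natCast (s ^ (-(1 / 2) : ℝ)) 2, ← Real.rpow_mul hs.le]
      norm_num
      rw [Real.rpow_neg_one]
      exact inv_mul_cancel₀ hs.ne'
    calc w ^ 2 * s ^ 3 = ((s ^ (-(1 / 2) : ℝ)) ^ 2 * s) ^ 3 := by rw [hw]; ring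
      _ = 1 := by rw [e3]; norm_num
  -- r = w √P
  have hr3 : r = w * √P := by
    have h1 : r ^ 2 = (w * √P) ^ 2 := by
      rw [mul_pow, Real.sq_sqrt (by linarith)]
      calc r ^ 2 = r ^ 2 * (w ^ 2 * s ^ 3) := by rw [hw2, mul_one]
        _ = w ^ 2 * (r ^ 2 * s ^ 3) := by ring
        _ = _ := by rw [hr2]
    exact (sq_eq_sq₀ hr (by positivity)).1 h1
  have hsq : 18 / 25 * (P * √P) ≤ √n := by
    apply Real.le_sqrt_of_sq_le
    rw [mul_pow, mul_pow, Real.sq_sqrt (by linarith), hn]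
    nlinarith [mul_nonneg (by linarith : (0 : ℝ) ≤ P) (by nlinarith : (0 : ℝ) ≤ P ^ 2 - 4)]
  calc N ^ 3 ≤ 4000 * P * K * n ^ 2 := h
    _ ≤ 4000 * P * (180 * r) * n ^ 2 := by gcongr
    _ = 1000000 * w * (n ^ 2 * (18 / 25 * (P * √P))) := by
        rw [hr3]
        ring
    _ ≤ _ := by gcongr

theorem hT2 (hBP : StBP) (hT1 : StT1) : StT2 := by
  classical
  intro p hp S hS s hs hs1 h5
  have : Fintype (Pt p) := Fintype.ofFinite _
  have hp1 : 1 < p := hp.out.one_lt
  set P : ℝ := (p : ℝ) with hPdef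
  have hP0 : (0 : ℝ) < P := by
    rw [hPdef]
    exact_mod_cast hp.out.pos
  have hPbig : (40000 : ℝ) ≤ P := by
    have h1 : s ^ 5 ≤ 1 := pow_le_one₀ hs.le hs1
    nlinarith
  set A : Pt p × Pt p → Finset (G p) := fun e =>
    (univ : Finset (G p)).filter (fun h => h ∈ S ∧ h • e.1 = e.2) with hA
  have hAn : ∀ x y : Pt p, ({h | h ∈ S ∧ h • x = y} : Set (G p)).ncard = (A (x, y)).card := by
    intro x y
    rw [← Set.ncard_coe_finset]
    congr 1
    ext h
    simp [hA]
  set R : Finset (Pt p × Pt p) := univ.filter (fun e => s * (P * (P - 1)) ≤ ((A e).card : ℝ))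
    with hR
  -- the union
  have hU : ∀ E : Finset (Pt p × Pt p),
      ({g | g ∈ S ∧ ∃ e ∈ (E : Set (Pt p × Pt p)), g • e.1 = e.2} : Set (G p)).ncard =
        (E.biUnion A).card := by
    intro E
    rw [← Set.ncard_coe_finset]
    congr 1
    ext g
    simp only [hA, Set.mem_ofPred_eq, mem_coe, mem_biUnion, mem_filter, mem_univ, true_and]
    constructor
    · rintro ⟨h1, e, h2, h3⟩
      exact ⟨e, h2, h1, h3⟩
    · rintro ⟨e, h2, h1, h3⟩
      exact ⟨h1, e, h2, h3⟩
  have hncast : ((p * (p ^ 2 - 1) : ℕ) : ℝ) = P * (P ^ 2 - 1) := by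
    have : 1 ≤ p ^ 2 := Nat.one_le_pow _ _ (by omega)
    push_cast [Nat.cast_sub this]
    rfl
  have hT1' : ∀ E : Finset (Pt p × Pt p),
      ((E.biUnion A).card : ℝ) ^ 3 ≤ 4000 * P * E.card * (P * (P ^ 2 - 1)) ^ 2 := by
    intro E
    have h1 := hT1 p S hS (E : Set (Pt p × Pt p))
    rw [hU E, Set.ncard_coe_finset] at h1
    have h2 : (((E.biUnion A).card ^ 3 : ℕ) : ℝ) ≤
        ((4000 * p * E.card * (p * (p ^ 2 - 1)) ^ 2 : ℕ) : ℝ) := by exact_mod_cast h1
    rw [Nat.cast_pow, Nat.cast_mul, Nat.cast_pow, hncast] at h2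
    push_cast at h2
    exact h2
  set r : ℝ := √(P / s ^ 3) with hr
  have hr0 : 0 ≤ r := Real.sqrt_nonneg _
  have hr2 : r ^ 2 * s ^ 3 = P := by
    rw [hr, Real.sq_sqrt (by positivity)]
    field_simp
  -- the claim
  have hK : (R.card : ℝ) ≤ 180 * r := by
    by_contra hcon
    push Not at hcon
    set K₀ : ℕ := ⌈180 * r⌉₊ with hK0
    have hK0le : K₀ ≤ R.card := Nat.ceil_le.2 hcon.le
    obtain ⟨E, hER, hEc⟩ := exists_subset_card_eq hK0le
    have hk1 : 180 * r ≤ K₀ := Nat.le_ceil _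
    have hk2 : (K₀ : ℝ) < 180 * r + 1 := Nat.ceil_lt_add_one (by positivity)
    have hrpos : 0 < r := by
      rw [hr]
      positivity
    have hk3 : (0 : ℝ) < K₀ := by nlinarith
    have hk4 : 180 * r ≤ s * P := by
      apply le_of_pow_le_pow_left₀ two_ne_zero (by positivity)
      have h1 : (180 * r) ^ 2 * s ^ 3 ≤ (s * P) ^ 2 * s ^ 3 := by
        calc (180 * r) ^ 2 * s ^ 3 = 32400 * (r ^ 2 * s ^ 3) := by ring
          _ = 32400 * P := by rw [hr2]
          _ ≤ 40000 * P := by nlinarith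
          _ ≤ s ^ 5 * P * P := by nlinarith
          _ = _ := by ring
      exact le_of_mul_le_mul_right h1 (by positivity)
    have hb := bonf_T2 A (s * (P * (P - 1))) (P - 1) E
      (fun e he => (mem_filter.1 (hER he)).2)
      (fun e _ e' _ hne => by
        have h1 := inter_T2 hBP p S e.1 e.2 e'.1 e'.2 hne
        have h2 : (((A e ∩ A e').card : ℕ) : ℝ) ≤ ((p - 1 : ℕ) : ℝ) := by exact_mod_cast h1
        rw [Nat.cast_sub hp1.le] at h2
        simpa using h2)
    rw [hEc] at hb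
    have hb2 : (K₀ : ℝ) * s * P * (P - 1) / 2 ≤ ((E.biUnion A).card : ℝ) := by
      refine le_trans ?_ hb
      have h1 : (K₀ : ℝ) - 1 ≤ s * P := by linarith
      have h2 : (K₀ : ℝ) * ((K₀ : ℝ) - 1) * (P - 1) ≤ K₀ * (s * P) * (P - 1) := by
        apply mul_le_mul_of_nonneg_right _ (by linarith)
        exact mul_le_mul_of_nonneg_left h1 hk3.le
      nlinarith
    have h3 := hT1' E
    rw [hEc] at h3
    have h4 : ((K₀ : ℝ) * s * P * (P - 1) / 2) ^ 3 ≤
        4000 * P * K₀ * (P * (P ^ 2 - 1)) ^ 2 :=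
      (pow_le_pow_left₀ (by
        have : 0 ≤ P - 1 := by linarith
        positivity) hb2 3).trans h3
    have h5' : (K₀ : ℝ) ^ 2 * s ^ 3 * (P - 1) ≤ 32000 * (P + 1) ^ 2 := by
      have hc : 0 < (K₀ : ℝ) * P ^ 3 * (P - 1) ^ 2 := by
        have : 0 < P - 1 := by linarith
        positivity
      apply le_of_mul_le_mul_right _ hc
      calc (K₀ : ℝ) ^ 2 * s ^ 3 * (P - 1) * ((K₀ : ℝ) * P ^ 3 * (P - 1) ^ 2) =
            8 * ((K₀ : ℝ) * s * P * (P - 1) / 2) ^ 3 := by ring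
        _ ≤ 8 * (4000 * P * K₀ * (P * (P ^ 2 - 1)) ^ 2) := by linarith
        _ = _ := by ring
    have h6 : 32400 * P ≤ (K₀ : ℝ) ^ 2 * s ^ 3 := by
      calc 32400 * P = (180 * r) ^ 2 * s ^ 3 := by
            rw [← hr2]
            ring
        _ ≤ (K₀ : ℝ) ^ 2 * s ^ 3 := by
            apply mul_le_mul_of_nonneg_right _ (by positivity)
            exact pow_le_pow_left₀ (by positivity) hk1 2
    have h7 : 32400 * P * (P - 1) ≤ 32000 * (P + 1) ^ 2 :=
      (mul_le_mul_of_nonneg_right h6 (by linarith)).trans h5'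
    nlinarith
  -- conclusion
  have hset : ({g | g ∈ S ∧ ∃ x : Pt p, s * (P * (P - 1)) ≤
      ({h | h ∈ S ∧ h • x = g • x}.ncard : ℝ)} : Set (G p)).ncard = (R.biUnion A).card := by
    rw [← Set.ncard_coe_finset]
    congr 1
    ext g
    simp only [Set.mem_ofPred_eq, coe_biUnion, Set.mem_iUnion, exists_prop, mem_coe]
    constructor
    · rintro ⟨h1, x, h2⟩
      rw [hAn x (g • x)] at h2
      refine ⟨(x, g • x), ?_, ?_⟩
      · exact mem_filter.2 ⟨mem_univ _, h2⟩
      · exact mem_filter.2 ⟨mem_univ _, h1, rfl⟩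
    · rintro ⟨⟨x, y⟩, h1, h2⟩
      obtain ⟨-, h3, h4⟩ := mem_filter.1 h2
      have h5 := (mem_filter.1 h1).2
      refine ⟨h3, x, ?_⟩
      have h4' : g • x = y := h4
      rw [h4', hAn x y]
      exact h5
  rw [hset, hncast]
  exact fin_T2 s P r R.card (R.biUnion A).card hs (by linarith) hr0 hr2 hK
    (P * (P ^ 2 - 1)) rfl (hT1' R)

end Pool.Agent.Helper2.EC
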